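import Pool.Agent.Lib.H13K.AD

/-! # H13B (Baumslag's theorem), step 2: no element of infinite order of a factor lies in `K` -/

set_option autoImplicit false

namespace H13B

open H13K

/-- The complementary derivation `x ↦ (1 - x) - d x`. -/
theorem compl_der {G : Type} [Group G] (d : G → (G →₀ ℤ))
    (hmul : ∀ x y, d (x * y) = d x + lt x (d y)) (x y : G) :
    (Finsupp.single 1 1 - Finsupp.single (x * y) 1) - d (x * y) =
      ((Finsupp.single 1 1 - Finsupp.single x 1) - d x) +
        lt x ((Finsupp.single 1 1 - Finsupp.single y 1) - d y) := by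
  rw [hmul, lt_sub, lt_sub, lt_single, lt_single, mul_one]
  abel

private theorem s2_pow {G : Type} [Group G] (m : G) (n : ℕ) (x : G) :
    m⁻¹ * ((m ^ n)⁻¹ * x) = (m ^ (n + 1))⁻¹ * x := by
  rw [pow_succ, mul_inv_rev, mul_assoc]

/-- Let `K` be a normal subgroup with infinite quotient such that the derivation `d` is supported over a
finite set `F` of cosets on `K`. Then `K` contains no element `k` of infinite order with `d k = 0`, if
some `c ≠ 1` has `d c = 1 - c`. -/
theorem no_inf {G : Type} [Group G] (d : G → (G →₀ ℤ))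
    (hmul : ∀ x y, d (x * y) = d x + lt x (d y)) (K : Subgroup G) [K.Normal]
    (F : Set (G ⧸ K)) (hF : F.Finite) (hsupp : ∀ k ∈ K, ∀ x, d k x ≠ 0 → (QuotientGroup.mk x : G ⧸ K) ∈ F)
    (hinf : Infinite (G ⧸ K)) (k : G) (hk : k ∈ K) (hord : ∀ n : ℤ, k ^ n = 1 → n = 0) (hdk : d k = 0)
    (c : G) (hc : c ≠ 1) (hdc : d c = Finsupp.single 1 1 - Finsupp.single c 1) : False := by
  classical
  have hd1 : d 1 = 0 := by
    have h := hmul 1 1
    rw [mul_one, lt_one] at h
    have h2 : d 1 + d 1 = d 1 + 0 := by rw [← h, add_zero]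
    exact add_left_cancel h2
  have hconj : ∀ g y, d (g * k * g⁻¹) y = d g y - d g ((g * k * g⁻¹)⁻¹ * y) := by
    intro g y
    have h1 : lt g (d g⁻¹) = - d g := by
      have h := hmul g g⁻¹
      rw [mul_inv_cancel, hd1] at h
      exact (neg_eq_of_add_eq_zero_right h.symm).symm
    have h2 : lt (g * k) (d g⁻¹) = lt (g * k * g⁻¹) (lt g (d g⁻¹)) := by
      rw [← lt_mul, inv_mul_cancel_right]
    have h3 : d (g * k * g⁻¹) = d g + lt (g * k * g⁻¹) (- d g) := by
      rw [hmul (g * k) g⁻¹, hmul g k, hdk, lt_zero, add_zero, h2, h1]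
    rw [h3, Finsupp.add_apply, lt_apply, Finsupp.neg_apply]
    ring
  have key : ∀ g x, d g x ≠ 0 → (QuotientGroup.mk x : G ⧸ K) ∈ F := by
    intro g x hx
    by_contra hxF
    have hk' : g * k * g⁻¹ ∈ K := Subgroup.Normal.conj_mem ‹K.Normal› k hk g
    have hmk : ∀ n : ℕ, (QuotientGroup.mk (((g * k * g⁻¹) ^ n)⁻¹ * x) : G ⧸ K) = QuotientGroup.mk x := by
      intro n
      have h1 : ((g * k * g⁻¹) ^ n)⁻¹ ∈ K := K.inv_mem (K.pow_mem hk' n)
      rw [QuotientGroup.mk_mul, (QuotientGroup.eq_one_iff _).2 h1, one_mul]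
    have hstep : ∀ n : ℕ, d g (((g * k * g⁻¹) ^ n)⁻¹ * x) = d g x := by
      intro n
      induction n with
      | zero => simp
      | succ n ih =>
        have h1 := hconj g (((g * k * g⁻¹) ^ n)⁻¹ * x)
        have h2 : d (g * k * g⁻¹) (((g * k * g⁻¹) ^ n)⁻¹ * x) = 0 := by
          by_contra h3
          have h4 := hsupp _ hk' _ h3
          rw [hmk n] at h4
          exact hxF h4
        rw [h2] at h1
        have h5 : (g * k * g⁻¹)⁻¹ * (((g * k * g⁻¹) ^ n)⁻¹ * x) = ((g * k * g⁻¹) ^ (n + 1))⁻¹ * x := by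
          exact s2_pow _ n x
        rw [h5] at h1
        rw [← ih]
        exact (sub_eq_zero.1 h1.symm).symm
    have hinj : Function.Injective fun n : ℕ => ((g * k * g⁻¹) ^ n)⁻¹ * x := by
      intro m n hmn
      have h1 : ((g * k * g⁻¹) ^ m)⁻¹ = ((g * k * g⁻¹) ^ n)⁻¹ := mul_right_cancel hmn
      have h2 : (g * k * g⁻¹) ^ m = (g * k * g⁻¹) ^ n := inv_injective h1
      rw [conj_pow, conj_pow] at h2
      have h3 : k ^ m = k ^ n := mul_left_cancel (mul_right_cancel h2)
      have h4 : k ^ ((m : ℤ) - n) = 1 := by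
        rw [zpow_sub, zpow_natCast, zpow_natCast, h3, mul_inv_cancel]
      have h5 := hord _ h4
      omega
    have hsub : Set.range (fun n : ℕ => ((g * k * g⁻¹) ^ n)⁻¹ * x) ⊆ ((d g).support : Set G) := by
      rintro _ ⟨n, rfl⟩
      rw [Finset.mem_coe, Finsupp.mem_support_iff]
      show d g (((g * k * g⁻¹) ^ n)⁻¹ * x) ≠ 0
      rw [hstep n]
      exact hx
    exact Set.infinite_range_of_injective hinj ((d g).support.finite_toSet.subset hsub)
  have hall : ∀ q : G ⧸ K, q ∈ F := by
    intro q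
    obtain ⟨g, rfl⟩ := QuotientGroup.mk_surjective q
    have hne : g * c ≠ g := by
      intro h
      exact hc (mul_eq_left.1 h)
    have h1 : d (g * c) g = d g g + 1 := by
      rw [hmul, hdc, lt_sub, lt_single, lt_single, mul_one, Finsupp.add_apply, Finsupp.sub_apply,
        Finsupp.single_eq_same, Finsupp.single_apply, if_neg hne, sub_zero]
    by_cases h2 : d g g = 0
    · apply key (g * c) g
      rw [h1, h2]
      norm_num
    · exact key g g h2
  have h6 : Finite (G ⧸ K) := by
    rw [← Set.finite_univ_iff]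
    exact hF.subset fun q _ => hall q
  exact not_finite (G ⧸ K)

end H13B
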