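import Pool.Agent.Lib.H13K.A4

/-! # H13B (Baumslag's theorem), step 3a: elements of prime order are elliptic -/

set_option autoImplicit false

namespace H13B

open H13K

private theorem s3_card {G Q : Type} [Group G] [MulAction G Q] (m : G) (p : ℕ)
    (hp : p.Prime) (hm : m ^ p = 1) (hfix : ∀ q : Q, m • q ≠ q) (T : Finset Q)
    (hT : ∀ a ∈ T, m • a ∈ T) : p ∣ T.card := by
  classical
  have := Fact.mk hp
  let f : Function.End T := fun a => ⟨m • a.1, hT a.1 a.2⟩
  have hpow : ∀ (n : ℕ) (a : T), ((f ^ n) a).1 = m ^ n • a.1 := by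
    intro n
    induction n with
    | zero =>
      intro a
      rw [pow_zero, pow_zero, one_smul]
      rfl
    | succ n ih =>
      intro a
      rw [pow_succ', pow_succ', mul_smul, ← ih a]
      rfl
  have hf : f ^ p ^ 1 = 1 := by
    funext a
    apply Subtype.ext
    rw [pow_one, hpow, hm, one_smul]
    rfl
  have h := Equiv.Perm.card_fixedPoints_modEq hf
  have h0 : Fintype.card (Function.fixedPoints f) = 0 :=
    Fintype.card_eq_zero_iff.2 ⟨fun a => hfix a.1.1 (congrArg Subtype.val a.2)⟩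
  rw [h0, Fintype.card_coe] at h
  exact (Nat.modEq_zero_iff_dvd).1 h

private theorem s3_sum {G Q : Type} [Group G] [MulAction G Q] (m : G) (p : ℕ)
    (hp : p.Prime) (hm : m ^ p = 1) (hfix : ∀ q : Q, m • q ≠ q) (xi : Q →₀ ℤ)
    (h : xi.mapDomain (fun q => m • q) = xi) : (p : ℤ) ∣ xi.sum (fun _ n => n) := by
  classical
  have hstep : ∀ q, xi (m • q) = xi q := by
    intro q
    have h1 := Finsupp.mapDomain_apply (f := fun q : Q => m • q) (MulAction.injective m) xi q
    rw [h] at h1
    exact h1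
  have h1 : xi.sum (fun _ n => n) = ∑ q ∈ xi.support, id (xi q) := rfl
  rw [h1, Finset.sum_comp id (fun q => xi q)]
  refine Finset.dvd_sum fun b _ => ?_
  have h2 : p ∣ (xi.support.filter fun q => xi q = b).card := by
    refine s3_card m p hp hm hfix _ fun a ha => ?_
    rw [Finset.mem_filter, Finsupp.mem_support_iff] at ha ⊢
    rw [hstep]
    exact ha
  obtain ⟨c, hc⟩ := h2
  rw [hc]
  refine ⟨(c : ℤ) * b, ?_⟩
  simp only [id, nsmul_eq_mul]
  push_cast
  ring

private theorem s3_sub {α β : Type} (f : α → β) (u v : α →₀ ℤ) :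
    (u - v).mapDomain f = u.mapDomain f - v.mapDomain f :=
  map_sub (Finsupp.mapDomain.addMonoidHom f) u v

private theorem s3_aug {α β : Type} (f : α → β) (u : α →₀ ℤ) :
    (u.mapDomain f).sum (fun _ n => n) = u.sum (fun _ n => n) :=
  Finsupp.sum_mapDomain_index (fun _ => rfl) (fun _ _ _ => rfl)

private theorem s3_prA_lt {A B : Type} [Group A] [Group B] (x : Monoid.Coprod A B)
    (u : Monoid.Coprod A B →₀ ℤ) :
    prA (lt x u) = (prA u).mapDomain (fun q => x • q) := by
  unfold prA lt
  rw [← Finsupp.mapDomain_comp, ← Finsupp.mapDomain_comp]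
  rfl

private theorem s3_prB_lt {A B : Type} [Group A] [Group B] (x : Monoid.Coprod A B)
    (u : Monoid.Coprod A B →₀ ℤ) :
    prB (lt x u) = (prB u).mapDomain (fun q => x • q) := by
  unfold prB lt
  rw [← Finsupp.mapDomain_comp, ← Finsupp.mapDomain_comp]
  rfl

private theorem s3_fix {G : Type} [Group G] (S : Subgroup G) (k : G) (h : ∀ g : G, g⁻¹ * k * g ∉ S)
    (q : G ⧸ S) : k • q ≠ q := by
  obtain ⟨g, rfl⟩ := QuotientGroup.mk_surjective q
  intro hq
  rw [MulAction.Quotient.smul_mk, smul_eq_mul] at hq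
  have h2 := QuotientGroup.eq.1 hq.symm
  rw [← mul_assoc] at h2
  exact h g h2

/-- An element of prime order on which the derivation is a coboundary is conjugate into a factor. -/
theorem torsion_elliptic {A B : Type} [Group A] [Group B]
    (d : Monoid.Coprod A B → (Monoid.Coprod A B →₀ ℤ))
    (hmul : ∀ x y, d (x * y) = d x + lt x (d y)) (hA : ∀ a : A, d (Monoid.Coprod.inl a) = 0)
    (hB : ∀ b : B, d (Monoid.Coprod.inr b) =
      Finsupp.single 1 1 - Finsupp.single (Monoid.Coprod.inr b) 1)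
    (k : Monoid.Coprod A B) (p : ℕ) (hp : p.Prime) (hk : k ^ p = 1)
    (x : Monoid.Coprod A B →₀ ℤ) (hx : d k = x - lt k x) :
    ∃ g : Monoid.Coprod A B, g⁻¹ * k * g ∈ SA A B ∨ g⁻¹ * k * g ∈ SB A B := by
  by_contra hcon
  push Not at hcon
  have hBinv : (prB x).mapDomain (fun q => k • q) = prB x := by
    have h2 := piB d hmul hA hB k
    rw [hx] at h2
    have h3 : prB (x - lt k x) = prB x - prB (lt k x) := s3_sub _ _ _
    rw [h3, s3_prB_lt] at h2
    exact (sub_eq_zero.1 h2).symm
  have hAinv : (prA x - Finsupp.single (QuotientGroup.mk 1) 1).mapDomain (fun q => k • q) =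
      prA x - Finsupp.single (QuotientGroup.mk 1) 1 := by
    have h2 := piA d hmul hA hB k
    rw [hx] at h2
    have h3 : prA (x - lt k x) = prA x - prA (lt k x) := s3_sub _ _ _
    rw [h3, s3_prA_lt] at h2
    have h4 : k • (QuotientGroup.mk 1 : Monoid.Coprod A B ⧸ SA A B) = QuotientGroup.mk k := by
      rw [MulAction.Quotient.smul_mk, smul_eq_mul, mul_one]
    rw [s3_sub, Finsupp.mapDomain_single, h4]
    have h5 : (prA x).mapDomain (fun q => k • q) = prA x - (Finsupp.single (QuotientGroup.mk 1) 1 -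
        Finsupp.single (QuotientGroup.mk k) 1) := by
      rw [← h2]
      abel
    rw [h5]
    abel
  have h1 := s3_sum k p hp hk (s3_fix (SB A B) k fun g => (hcon g).2) _ hBinv
  have h2 := s3_sum k p hp hk (s3_fix (SA A B) k fun g => (hcon g).1) _ hAinv
  have h3 : (prB x).sum (fun _ n => n) = x.sum (fun _ n => n) :=
    s3_aug (fun x : Monoid.Coprod A B => (QuotientGroup.mk x : Monoid.Coprod A B ⧸ SB A B)) x
  have h4 : (prA x).sum (fun _ n => n) = x.sum (fun _ n => n) :=
    s3_aug (fun x : Monoid.Coprod A B => (QuotientGroup.mk x : Monoid.Coprod A B ⧸ SA A B)) x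
  have h5 : (prA x - Finsupp.single (QuotientGroup.mk 1) 1).sum (fun _ n => n) =
      (prA x).sum (fun _ n => n) - 1 := by
    rw [Finsupp.sum_sub_index (fun _ _ _ => rfl), Finsupp.sum_single_index rfl]
  rw [h3] at h1
  rw [h5, h4] at h2
  have h6 : (p : ℤ) ∣ 1 := by
    have h7 := dvd_sub h1 h2
    have h8 : x.sum (fun _ n => n) - (x.sum (fun _ n => n) - 1) = 1 := by ring
    rwa [h8] at h7
  have h9 : p ∣ 1 := by exact_mod_cast h6
  exact hp.one_lt.ne' (Nat.dvd_one.1 h9)

end H13B
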