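import Mathlib

/-!
# H13B, Step 3b: the commutator of two nontrivial elements of the factors has infinite order

Let `A * B` act on the functions `A × B → ℤ`: `A` by translation, `B` by translation conjugated with the addition of
the indicator function `m` of the identity. Then the commutator of `a` and `b` acts as the addition of
`(a - 1) (1 - b) m`, whose value at the identity is `-1`.
-/

set_option autoImplicit false

namespace H13B

/-- Translation of functions. -/
private def s3bT {Q : Type} [Group Q] : Q →* Equiv.Perm (Q → ℤ) where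
  toFun q :=
    { toFun := fun f x => f (q⁻¹ * x)
      invFun := fun f x => f (q * x)
      left_inv := fun f => by funext x; simp
      right_inv := fun f => by funext x; simp }
  map_one' := by
    ext f x
    simp
  map_mul' q r := by
    ext f x
    simp [mul_assoc]

private theorem s3bT_apply {Q : Type} [Group Q] (q : Q) (f : Q → ℤ) (x : Q) :
    s3bT q f x = f (q⁻¹ * x) := rfl

private theorem s3bT_symm {Q : Type} [Group Q] (q : Q) (f : Q → ℤ) (x : Q) :
    (s3bT q).symm f x = f (q * x) := rfl

private theorem s3b_zpow {M : Type} [AddCommGroup M] (c : M) (n : ℤ) :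
    (Equiv.addRight c : Equiv.Perm M) ^ n = Equiv.addRight (n • c) := by
  induction n using Int.induction_on with
  | zero =>
    ext x
    simp
  | succ i ih =>
    rw [zpow_add_one, ih]
    ext x
    simp only [Equiv.Perm.mul_apply, Equiv.coe_addRight, add_smul, one_smul]
    abel
  | pred i ih =>
    rw [zpow_sub_one, ih]
    ext x
    simp only [Equiv.Perm.mul_apply, Equiv.coe_addRight, sub_smul, one_smul, Equiv.Perm.inv_def,
      Equiv.addRight_symm]
    abel

theorem comm_infinite {A B : Type} [Group A] [Group B] (a : A) (b : B) (ha : a ≠ 1) (hb : b ≠ 1) (n : ℤ)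
    (h : (Monoid.Coprod.inl a * Monoid.Coprod.inr b * (Monoid.Coprod.inl a)⁻¹ *
      (Monoid.Coprod.inr b)⁻¹ : Monoid.Coprod A B) ^ n = 1) : n = 0 := by
  classical
  set m : A × B → ℤ := fun q => if q = 1 then 1 else 0 with hm
  set S : Equiv.Perm (A × B → ℤ) := Equiv.addRight m with hS
  set F : Monoid.Coprod A B →* Equiv.Perm (A × B → ℤ) :=
    Monoid.Coprod.lift (s3bT.comp (MonoidHom.inl A B))
      ((MulAut.conj S).toMonoidHom.comp (s3bT.comp (MonoidHom.inr A B))) with hF
  set c : A × B → ℤ := fun q => m ((a, 1)⁻¹ * q) - m ((1, b)⁻¹ * ((a, 1)⁻¹ * q)) - m q +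
    m ((1, b)⁻¹ * q) with hc
  have hl : F (Monoid.Coprod.inl a) = s3bT (a, 1) := by
    simp [hF]
  have hr : F (Monoid.Coprod.inr b) = S * s3bT (1, b) * S⁻¹ := by
    simp [hF]
  have key : F (Monoid.Coprod.inl a * Monoid.Coprod.inr b * (Monoid.Coprod.inl a)⁻¹ *
      (Monoid.Coprod.inr b)⁻¹) = Equiv.addRight c := by
    rw [map_mul, map_mul, map_mul, map_inv, map_inv, hl, hr]
    refine Equiv.ext fun f => funext fun x => ?_
    have e1 : ((1, b) * ((1, b)⁻¹ * x) : A × B) = x := by
      ext <;> simp
    have e2 : ((a, 1) * ((1, b)⁻¹ * ((a, 1)⁻¹ * x)) : A × B) = (1, b)⁻¹ * x := by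
      ext <;> simp
    simp only [Equiv.Perm.mul_apply, Equiv.Perm.inv_def, mul_inv_rev, hS, Equiv.coe_addRight,
      Equiv.addRight_symm, Pi.add_apply, Pi.neg_apply, s3bT_apply, s3bT_symm, hc, e1, e2]
    ring
  have h2 := congrArg F h
  rw [map_zpow, key, map_one, s3b_zpow] at h2
  have h3 := congrFun (congrArg (fun g : Equiv.Perm (A × B → ℤ) => g 0) h2) 1
  have hc1 : c 1 = -1 := by
    have e1 : ((a, (1 : B))⁻¹ : A × B) ≠ 1 := by
      intro h0
      rw [inv_eq_one] at h0
      exact ha (congrArg Prod.fst h0)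
    have e2 : (((1 : A), b)⁻¹ : A × B) ≠ 1 := by
      intro h0
      rw [inv_eq_one] at h0
      exact hb (congrArg Prod.snd h0)
    have e3 : (((1 : A), b)⁻¹ * (a, (1 : B))⁻¹ : A × B) ≠ 1 := by
      intro h0
      apply ha
      have h1 := congrArg Prod.fst h0
      simpa using h1
    simp only [hc, hm, mul_one, if_neg e1, if_neg e2, if_neg e3, if_true]
    norm_num
  simp [hc1] at h3
  exact h3

end H13B
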