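import Pool.Agent.Lib.H13B.S1
import Pool.Agent.Lib.H13B.S2
import Pool.Agent.Lib.H13B.S3a
import Pool.Agent.Lib.H13B.S3b

/-! # H13B: Baumslag's theorem -/

set_option autoImplicit false

namespace H13B

open H13K

/-- B. Baumslag's theorem: a finitely generated normal subgroup of infinite index of a non-trivial free
product is trivial. -/
theorem baumslag {A B : Type} [Group A] [Group B] [Nontrivial A] [Nontrivial B]
    (K : Subgroup (Monoid.Coprod A B)) [K.Normal] (hfg : K.FG)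
    (hinf : Infinite (Monoid.Coprod A B ⧸ K)) : K = ⊥ := by
  obtain ⟨d, hmul, hA, hB⟩ := exists_der A B
  obtain ⟨b0, hb0⟩ := exists_ne (1 : B)
  obtain ⟨a0, ha0⟩ := exists_ne (1 : A)
  have hinlinj : ∀ a : A, (Monoid.Coprod.inl a : Monoid.Coprod A B) = 1 → a = 1 := by
    intro a h
    have h1 := congrArg (Monoid.Coprod.fst : Monoid.Coprod A B →* A) h
    rwa [Monoid.Coprod.fst_apply_inl, map_one] at h1
  have hinrinj : ∀ b : B, (Monoid.Coprod.inr b : Monoid.Coprod A B) = 1 → b = 1 := by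
    intro b h
    have h1 := congrArg (Monoid.Coprod.snd : Monoid.Coprod A B →* B) h
    rwa [Monoid.Coprod.snd_apply_inr, map_one] at h1
  have hconjm : ∀ k ∈ K, ∀ g, g⁻¹ * k * g ∈ K := by
    intro k hk g
    have h := Subgroup.Normal.conj_mem ‹K.Normal› k hk g⁻¹
    rwa [inv_inv] at h
  -- no element of infinite order
  have hA2 : ∀ a : A, (Monoid.Coprod.inl a : Monoid.Coprod A B) ∈ K →
      ¬ ∀ n : ℤ, (Monoid.Coprod.inl a : Monoid.Coprod A B) ^ n = 1 → n = 0 := by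
    intro a ha hord
    obtain ⟨F, hF, hsupp⟩ := step0 d hmul K hfg
    exact no_inf d hmul K F hF hsupp hinf _ ha hord (hA a) (Monoid.Coprod.inr b0)
      (fun h => hb0 (hinrinj b0 h)) (hB b0)
  have hB2 : ∀ b : B, (Monoid.Coprod.inr b : Monoid.Coprod A B) ∈ K →
      ¬ ∀ n : ℤ, (Monoid.Coprod.inr b : Monoid.Coprod A B) ^ n = 1 → n = 0 := by
    intro b hb hord
    obtain ⟨F, hF, hsupp⟩ := step0 (fun x => (Finsupp.single 1 1 - Finsupp.single x 1) - d x)
      (compl_der d hmul) K hfg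
    refine no_inf (fun x => (Finsupp.single 1 1 - Finsupp.single x 1) - d x) (compl_der d hmul) K F hF
      hsupp hinf _ hb hord ?_ (Monoid.Coprod.inl a0) (fun h => ha0 (hinlinj a0 h)) ?_
    · show (Finsupp.single 1 1 - Finsupp.single (Monoid.Coprod.inr b) 1) - d (Monoid.Coprod.inr b) = 0
      rw [hB, sub_self]
    · show (Finsupp.single 1 1 - Finsupp.single (Monoid.Coprod.inl a0) 1) - d (Monoid.Coprod.inl a0) = _
      rw [hA, sub_zero]
  have hfin : ∀ k ∈ K, ¬ ∀ n : ℤ, k ^ n = 1 → n = 0 := by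
    intro k hk hord
    obtain ⟨g, hg⟩ := step1 K hfg hinf k hk hord
    have hord' : ∀ n : ℤ, (g⁻¹ * k * g) ^ n = 1 → n = 0 := by
      intro n hn
      apply hord n
      have h1 := conj_zpow (i := n) (a := g⁻¹) (b := k)
      rw [inv_inv] at h1
      rw [h1] at hn
      have h2 : g * (g⁻¹ * k ^ n * g) * g⁻¹ = g * 1 * g⁻¹ := by rw [hn]
      have h3 : g * (g⁻¹ * k ^ n * g) * g⁻¹ = k ^ n := by group
      rw [← h3, h2]
      group
    have hk' := hconjm k hk g
    rcases hg with ⟨a, ha⟩ | ⟨b, hb⟩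
    · rw [← ha] at hord' hk'
      exact hA2 a hk' hord'
    · rw [← hb] at hord' hk'
      exact hB2 b hk' hord'
  by_contra hne
  obtain ⟨k0, hk0⟩ := Subgroup.ne_bot_iff_exists_ne_one.1 hne
  obtain ⟨k, hk⟩ := k0
  have hk1 : k ≠ 1 := fun h1 => hk0 (Subtype.ext h1)
  have hko : IsOfFinOrder k := by
    have h1 := hfin k hk
    push Not at h1
    obtain ⟨n, hn, hn0⟩ := h1
    exact isOfFinOrder_iff_zpow_eq_one.2 ⟨n, hn0, hn⟩
  have hord1 : orderOf k ≠ 1 := fun h => hk1 (orderOf_eq_one_iff.1 h)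
  obtain ⟨p, hp, hpd⟩ := Nat.exists_prime_and_dvd hord1
  have hpos : 0 < orderOf k := hko.orderOf_pos
  obtain ⟨m, hm⟩ := hpd
  have hm0 : 0 < m := by
    rcases Nat.eq_zero_or_pos m with h | h
    · rw [h, mul_zero] at hm
      omega
    · exact h
  have hkp : (k ^ m) ^ p = 1 := by
    rw [← pow_mul, mul_comm, ← hm, pow_orderOf_eq_one]
  have hkm : k ^ m ≠ 1 := by
    intro h
    have h1 := Nat.le_of_dvd hm0 (orderOf_dvd_of_pow_eq_one h)
    have h2 := hp.two_le
    nlinarith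
  obtain ⟨x, hx⟩ := step1_cob d hmul K hfg hinf (k ^ m) (K.pow_mem hk m)
  obtain ⟨g, hg⟩ := torsion_elliptic d hmul hA hB (k ^ m) p hp hkp x hx
  have hmem := hconjm (k ^ m) (K.pow_mem hk m) g
  have hne1 : g⁻¹ * k ^ m * g ≠ 1 := by
    intro h
    apply hkm
    have h2 : g * (g⁻¹ * k ^ m * g) * g⁻¹ = g * 1 * g⁻¹ := by rw [h]
    have h3 : g * (g⁻¹ * k ^ m * g) * g⁻¹ = k ^ m := by group
    rw [← h3, h2]
    group
  rcases hg with ⟨a, ha⟩ | ⟨b, hb⟩
  · rw [← ha] at hmem hne1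
    have ha1 : a ≠ 1 := by
      rintro rfl
      exact hne1 (map_one _)
    have hc : (Monoid.Coprod.inl a * Monoid.Coprod.inr b0 * (Monoid.Coprod.inl a)⁻¹ *
        (Monoid.Coprod.inr b0)⁻¹ : Monoid.Coprod A B) ∈ K := by
      have h1 : (Monoid.Coprod.inr b0 * (Monoid.Coprod.inl a)⁻¹ * (Monoid.Coprod.inr b0)⁻¹ :
          Monoid.Coprod A B) ∈ K :=
        Subgroup.Normal.conj_mem ‹K.Normal› _ (K.inv_mem hmem) _
      have h2 := K.mul_mem hmem h1
      rwa [← mul_assoc, ← mul_assoc] at h2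
    exact hfin _ hc fun n hn => comm_infinite a b0 ha1 hb0 n hn
  · rw [← hb] at hmem hne1
    have hb1 : b ≠ 1 := by
      rintro rfl
      exact hne1 (map_one _)
    have hc : (Monoid.Coprod.inl a0 * Monoid.Coprod.inr b * (Monoid.Coprod.inl a0)⁻¹ *
        (Monoid.Coprod.inr b)⁻¹ : Monoid.Coprod A B) ∈ K := by
      have h1 : (Monoid.Coprod.inl a0 * Monoid.Coprod.inr b * (Monoid.Coprod.inl a0)⁻¹ :
          Monoid.Coprod A B) ∈ K :=
        Subgroup.Normal.conj_mem ‹K.Normal› _ hmem _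
      exact K.mul_mem h1 (K.inv_mem hmem)
    exact hfin _ hc fun n hn => comm_infinite a0 b ha0 hb1 n hn

end H13B
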