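import Pool.Agent.Lib.H13K.A4

set_option autoImplicit false

namespace H13B

open H13K Monoid.Coprod

variable {A B : Type} [Group A] [Group B]

private theorem s1_sub {α β : Type} (f : α → β) (u v : α →₀ ℤ) :
    (u - v).mapDomain f = u.mapDomain f - v.mapDomain f :=
  map_sub (Finsupp.mapDomain.addMonoidHom f) u v

private theorem s1_sum {α β : Type} (f : α → β) (u : α →₀ ℤ) :
    (u.mapDomain f).sum (fun _ n => n) = u.sum (fun _ n => n) :=
  Finsupp.sum_mapDomain_index (fun _ => rfl) (fun _ _ _ => rfl)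

private theorem s1_prA_lt (x : Monoid.Coprod A B) (u : Monoid.Coprod A B →₀ ℤ) :
    prA (lt x u) = (prA u).mapDomain (fun q => x • q) := by
  unfold prA lt
  rw [← Finsupp.mapDomain_comp, ← Finsupp.mapDomain_comp]
  rfl

private theorem s1_prB_lt (x : Monoid.Coprod A B) (u : Monoid.Coprod A B →₀ ℤ) :
    prB (lt x u) = (prB u).mapDomain (fun q => x • q) := by
  unfold prB lt
  rw [← Finsupp.mapDomain_comp, ← Finsupp.mapDomain_comp]
  rfl

/-- an invariant finitely supported function which is not zero has a periodic point -/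
private theorem s1_period {G Q : Type} [Group G] [MulAction G Q] (m : G) (xi : Q →₀ ℤ)
    (hne : xi ≠ 0) (h : xi.mapDomain (fun q => m • q) = xi) :
    ∃ (p : Q) (N : ℕ), 1 ≤ N ∧ m ^ N • p = p := by
  obtain ⟨p, hp⟩ := Finsupp.ne_iff.1 hne
  have hp' : xi p ≠ 0 := by simpa using hp
  have hstep : ∀ q, xi (m • q) = xi q := by
    intro q
    have h1 := Finsupp.mapDomain_apply (f := fun q : Q => m • q) (MulAction.injective m) xi q
    rw [h] at h1
    exact h1
  have hpow : ∀ n : ℕ, xi (m ^ n • p) = xi p := by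
    intro n
    induction n with
    | zero => simp
    | succ n ih => rw [pow_succ', mul_smul, hstep, ih]
  have hsub : Set.range (fun n : ℕ => m ^ n • p) ⊆ (xi.support : Set Q) := by
    rintro _ ⟨n, rfl⟩
    simp only [Finset.mem_coe, Finsupp.mem_support_iff]
    rw [hpow n]
    exact hp'
  have hni : ¬ Function.Injective (fun n : ℕ => m ^ n • p) := fun hi =>
    Set.infinite_range_of_injective hi (xi.support.finite_toSet.subset hsub)
  have key : ∀ i j : ℕ, i < j → m ^ i • p = m ^ j • p → ∃ (p : Q) (N : ℕ), 1 ≤ N ∧ m ^ N • p = p := by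
    intro i j hij he
    refine ⟨p, j - i, by omega, ?_⟩
    have h1 : m ^ j = m ^ i * m ^ (j - i) := by
      rw [← pow_add]
      congr 1
      omega
    rw [h1, mul_smul] at he
    exact (MulAction.injective (m ^ i) he).symm
  unfold Function.Injective at hni
  push Not at hni
  obtain ⟨i, j, he, hij⟩ := hni
  rcases lt_or_gt_of_ne hij with h1 | h1
  · exact key i j h1 he
  · exact key j i h1 he.symm

/-- the final step: a periodic coset -/
private theorem s1_fin {G : Type} [Group G] (S : Subgroup G) (m g : G)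
    (hord : ∀ n : ℤ, m ^ n = 1 → n = 0) (N : ℕ) (hN : 1 ≤ N)
    (hg : m ^ N • (QuotientGroup.mk g : G ⧸ S) = QuotientGroup.mk g)
    (hc : ∀ a ∈ S, (∀ n : ℤ, a ^ n = 1 → n = 0) → ∀ y, Commute a y → y ∈ S) :
    g⁻¹ * m * g ∈ S := by
  have h1 : g⁻¹ * m ^ N * g ∈ S := by
    rw [MulAction.Quotient.smul_mk, smul_eq_mul] at hg
    have h2 := QuotientGroup.eq.1 hg.symm
    rwa [← mul_assoc] at h2
  have hconj : ∀ n : ℕ, (g⁻¹ * m * g) ^ n = g⁻¹ * m ^ n * g := by
    intro n
    induction n with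
    | zero => simp
    | succ n ih =>
      rw [pow_succ, ih, pow_succ]
      group
  have h3 : ∀ n : ℤ, (g⁻¹ * m ^ N * g) ^ n = 1 → n = 0 := by
    intro n hn
    have h4 : (g⁻¹ * m ^ N * g) ^ n = g⁻¹ * (m ^ N) ^ n * g := by
      have h5 := conj_zpow (i := n) (a := g⁻¹) (b := m ^ N)
      rw [inv_inv] at h5
      exact h5
    rw [h4] at hn
    have h6 : (m ^ N) ^ n = 1 := by
      have h7 : g * (g⁻¹ * (m ^ N) ^ n * g) * g⁻¹ = g * 1 * g⁻¹ := by rw [hn]
      have h8 : g * (g⁻¹ * (m ^ N) ^ n * g) * g⁻¹ = (m ^ N) ^ n := by group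
      rw [← h8, h7]
      group
    have h9 : m ^ ((N : ℤ) * n) = 1 := by
      rw [zpow_mul, zpow_natCast, h6]
    rcases mul_eq_zero.1 (hord _ h9) with h | h
    · omega
    · exact h
  have hcm : Commute (g⁻¹ * m ^ N * g) (g⁻¹ * m * g) := by
    rw [← hconj]
    exact (Commute.refl _).pow_left N
  exact hc _ h1 h3 _ hcm

/-- Step 0: the derivation of the elements of a finitely generated normal subgroup is supported in
finitely many cosets. -/
theorem step0 (d : Monoid.Coprod A B → (Monoid.Coprod A B →₀ ℤ))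
    (hmul : ∀ x y, d (x * y) = d x + lt x (d y)) (K : Subgroup (Monoid.Coprod A B)) [K.Normal]
    (hfg : K.FG) :
    ∃ F : Set (Monoid.Coprod A B ⧸ K), F.Finite ∧
      ∀ k ∈ K, ∀ x, d k x ≠ 0 → (QuotientGroup.mk x : Monoid.Coprod A B ⧸ K) ∈ F := by
  obtain ⟨S, hS⟩ := hfg
  refine ⟨⋃ s ∈ S, (fun x => (QuotientGroup.mk x : Monoid.Coprod A B ⧸ K)) '' ((d s).support : Set _),
    S.finite_toSet.biUnion (fun s _ => ((d s).support.finite_toSet.image _)), ?_⟩
  have hone : d 1 = 0 := by
    have h := hmul 1 1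
    rw [mul_one, lt_one] at h
    exact (left_eq_add.1 h)
  have hmk : ∀ l ∈ K, ∀ x, (QuotientGroup.mk (l⁻¹ * x) : Monoid.Coprod A B ⧸ K) = QuotientGroup.mk x := by
    intro l hl x
    rw [QuotientGroup.eq]
    have h1 : (l⁻¹ * x)⁻¹ * x = x⁻¹ * l * x := by group
    rw [h1]
    have h2 := (inferInstance : K.Normal).conj_mem l hl x⁻¹
    rwa [inv_inv] at h2
  intro k hk
  rw [← hS] at hk
  refine Subgroup.closure_induction (p := fun k _ => ∀ x, d k x ≠ 0 →
    (QuotientGroup.mk x : Monoid.Coprod A B ⧸ K) ∈ ⋃ s ∈ S,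
      (fun x => (QuotientGroup.mk x : Monoid.Coprod A B ⧸ K)) '' ((d s).support : Set _))
    ?_ ?_ ?_ ?_ hk
  · intro s hs x hx
    refine Set.mem_iUnion₂.2 ⟨s, hs, x, ?_, rfl⟩
    simpa using hx
  · intro x hx
    rw [hone] at hx
    exact (hx rfl).elim
  · intro y z hy hz ihy ihz x hx
    by_cases h1 : d y x = 0
    · rw [hmul, Finsupp.add_apply, h1, zero_add, lt_apply] at hx
      have h2 := ihz _ hx
      rw [hmk y (by rw [← hS]; exact hy)] at h2
      exact h2
    · exact ihy x h1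
  · intro y hy ihy x hx
    have h1 : d y⁻¹ x = - d y (y * x) := by
      have h2 := hmul y⁻¹ y
      rw [inv_mul_cancel, hone] at h2
      have h3 : (0 : Monoid.Coprod A B →₀ ℤ) x = (d y⁻¹ + lt y⁻¹ (d y)) x := by rw [← h2]
      rw [Finsupp.add_apply, lt_apply, inv_inv, Finsupp.zero_apply] at h3
      linarith
    rw [h1] at hx
    have h4 := ihy _ (neg_ne_zero.1 hx)
    have h5 := hmk y⁻¹ (by rw [← hS]; exact inv_mem hy) x
    rw [inv_inv] at h5
    rw [h5] at h4
    exact h4

/-- The coboundary on one coset. -/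
private theorem s1_coset (d : Monoid.Coprod A B → (Monoid.Coprod A B →₀ ℤ))
    (hmul : ∀ x y, d (x * y) = d x + lt x (d y)) (K : Subgroup (Monoid.Coprod A B)) [K.Normal]
    (hfg : K.FG) (hinf : Infinite (Monoid.Coprod A B ⧸ K)) (k : Monoid.Coprod A B) (hk : k ∈ K)
    (q : Monoid.Coprod A B ⧸ K) :
    ∃ v : Monoid.Coprod A B →₀ ℤ, ∀ y, (QuotientGroup.mk y : Monoid.Coprod A B ⧸ K) = q →
      d k y = v y - v (k⁻¹ * y) := by
  obtain ⟨F, hF, hFk⟩ := step0 d hmul K hfg
  obtain ⟨r, hr⟩ := hF.exists_notMem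
  obtain ⟨g, hg⟩ := QuotientGroup.mk_surjective (r * q⁻¹)
  refine ⟨-(lt g⁻¹ (d g)), fun y hy => ?_⟩
  have h1 : d (g * k * g⁻¹) (g * y) = 0 := by
    by_contra hne
    have h2 := hFk _ ((inferInstance : K.Normal).conj_mem k hk g) _ hne
    apply hr
    have h3 : (QuotientGroup.mk (g * y) : Monoid.Coprod A B ⧸ K) = r := by
      rw [QuotientGroup.mk_mul, hg, hy, inv_mul_cancel_right]
    rwa [h3] at h2
  have h2 := hmul g k
  have h3 := hmul (g * k * g⁻¹) g
  rw [inv_mul_cancel_right, h2] at h3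
  have h4 : (d g + lt g (d k)) (g * y) = (d (g * k * g⁻¹) + lt (g * k * g⁻¹) (d g)) (g * y) := by
    rw [h3]
  rw [Finsupp.add_apply, Finsupp.add_apply, h1, lt_apply, lt_apply, inv_mul_cancel_left] at h4
  have h5 : (g * k * g⁻¹)⁻¹ * (g * y) = g * (k⁻¹ * y) := by group
  rw [h5] at h4
  rw [Finsupp.neg_apply, Finsupp.neg_apply, lt_apply, lt_apply, inv_inv]
  linarith

/-- The coboundary. -/
theorem step1_cob (d : Monoid.Coprod A B → (Monoid.Coprod A B →₀ ℤ))
    (hmul : ∀ x y, d (x * y) = d x + lt x (d y)) (K : Subgroup (Monoid.Coprod A B)) [K.Normal]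
    (hfg : K.FG) (hinf : Infinite (Monoid.Coprod A B ⧸ K)) (k : Monoid.Coprod A B) (hk : k ∈ K) :
    ∃ x : Monoid.Coprod A B →₀ ℤ, d k = x - lt k x := by
  classical
  have key : ∀ T : Finset (Monoid.Coprod A B ⧸ K), ∃ x : Monoid.Coprod A B →₀ ℤ, ∀ y,
      ((QuotientGroup.mk y : Monoid.Coprod A B ⧸ K) ∈ T → d k y = x y - x (k⁻¹ * y)) ∧
      ((QuotientGroup.mk y : Monoid.Coprod A B ⧸ K) ∉ T → x y = 0) := by
    intro T
    induction T using Finset.induction_on with
    | empty => exact ⟨0, fun y => ⟨fun h => by simp at h, fun _ => rfl⟩⟩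
    | insert q T hq ih =>
      obtain ⟨x, hx⟩ := ih
      obtain ⟨v, hv⟩ := s1_coset d hmul K hfg hinf k hk q
      have hmk : ∀ y, (QuotientGroup.mk (k⁻¹ * y) : Monoid.Coprod A B ⧸ K) = QuotientGroup.mk y := by
        intro y
        rw [QuotientGroup.eq]
        have h1 : (k⁻¹ * y)⁻¹ * y = y⁻¹ * k * y := by group
        rw [h1]
        have h2 := (inferInstance : K.Normal).conj_mem k hk y⁻¹
        rwa [inv_inv] at h2
      have hf : ∀ y, (v.filter (fun y => (QuotientGroup.mk y : Monoid.Coprod A B ⧸ K) = q)) y =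
          if (QuotientGroup.mk y : Monoid.Coprod A B ⧸ K) = q then v y else 0 :=
        fun y => Finsupp.filter_apply _ _ _
      refine ⟨x + v.filter (fun y => (QuotientGroup.mk y : Monoid.Coprod A B ⧸ K) = q), fun y => ⟨?_, ?_⟩⟩
      · intro hy
        rw [Finsupp.add_apply, Finsupp.add_apply, hf y, hf (k⁻¹ * y), hmk y]
        rcases Finset.mem_insert.1 hy with h | h
        · rw [if_pos h, if_pos h,
            (hx y).2 (by rw [h]; exact hq), (hx (k⁻¹ * y)).2 (by rw [hmk y, h]; exact hq), hv y h]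
          ring
        · have hne : (QuotientGroup.mk y : Monoid.Coprod A B ⧸ K) ≠ q := by
            rintro rfl
            exact hq h
          rw [if_neg hne, if_neg hne, (hx y).1 h]
          ring
      · intro hy
        rw [Finset.mem_insert, not_or] at hy
        rw [Finsupp.add_apply, hf y, if_neg hy.1, (hx y).2 hy.2, add_zero]
  obtain ⟨x, hx⟩ := key ((d k).support.image (fun y => (QuotientGroup.mk y : Monoid.Coprod A B ⧸ K)))
  refine ⟨x, Finsupp.ext fun y => ?_⟩
  rw [Finsupp.sub_apply, lt_apply]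
  by_cases hy : (QuotientGroup.mk y : Monoid.Coprod A B ⧸ K) ∈
      (d k).support.image (fun y => (QuotientGroup.mk y : Monoid.Coprod A B ⧸ K))
  · exact (hx y).1 hy
  · have hmk : (QuotientGroup.mk (k⁻¹ * y) : Monoid.Coprod A B ⧸ K) = QuotientGroup.mk y := by
      rw [QuotientGroup.eq]
      have h1 : (k⁻¹ * y)⁻¹ * y = y⁻¹ * k * y := by group
      rw [h1]
      have h2 := (inferInstance : K.Normal).conj_mem k hk y⁻¹
      rwa [inv_inv] at h2
    rw [(hx y).2 hy, (hx (k⁻¹ * y)).2 (by rw [hmk]; exact hy), sub_zero]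
    by_contra hne
    apply hy
    rw [Finset.mem_image]
    exact ⟨y, by simpa using hne, rfl⟩

/-- Step 1: an element of infinite order of a finitely generated normal subgroup of infinite index
of a free product is conjugate into a factor. -/
theorem step1 (K : Subgroup (Monoid.Coprod A B)) [K.Normal] (hfg : K.FG)
    (hinf : Infinite (Monoid.Coprod A B ⧸ K)) (k : Monoid.Coprod A B) (hk : k ∈ K)
    (hord : ∀ n : ℤ, k ^ n = 1 → n = 0) :
    ∃ g : Monoid.Coprod A B, g⁻¹ * k * g ∈ SA A B ∨ g⁻¹ * k * g ∈ SB A B := by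
  obtain ⟨d, hmul, hA, hB⟩ := exists_der A B
  obtain ⟨x, hx⟩ := step1_cob d hmul K hfg hinf k hk
  have hBinv : (prB x).mapDomain (fun q => k • q) = prB x := by
    have h2 := piB d hmul hA hB k
    rw [hx] at h2
    have h3 : prB (x - lt k x) = prB x - prB (lt k x) := s1_sub _ _ _
    rw [h3, s1_prB_lt] at h2
    exact (sub_eq_zero.1 h2).symm
  have hAinv : (prA x - Finsupp.single (QuotientGroup.mk 1) 1).mapDomain (fun q => k • q) =
      prA x - Finsupp.single (QuotientGroup.mk 1) 1 := by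
    have h2 := piA d hmul hA hB k
    rw [hx] at h2
    have h3 : prA (x - lt k x) = prA x - prA (lt k x) := s1_sub _ _ _
    rw [h3, s1_prA_lt] at h2
    have h4 : k • (QuotientGroup.mk 1 : Monoid.Coprod A B ⧸ SA A B) = QuotientGroup.mk k := by
      rw [MulAction.Quotient.smul_mk, smul_eq_mul, mul_one]
    rw [s1_sub, Finsupp.mapDomain_single, h4]
    have h5 : (prA x).mapDomain (fun q => k • q) = prA x - (Finsupp.single (QuotientGroup.mk 1) 1 -
        Finsupp.single (QuotientGroup.mk k) 1) := by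
      rw [← h2]
      abel
    rw [h5]
    abel
  by_cases hz : prB x = 0
  · have hs : x.sum (fun _ n => n) = 0 := by
      have h2 := s1_sum (fun x : Monoid.Coprod A B => (QuotientGroup.mk x : Monoid.Coprod A B ⧸ SB A B)) x
      have h3 : (prB x).sum (fun _ n => n) = x.sum (fun _ n => n) := h2
      rw [← h3, hz, Finsupp.sum_zero_index]
    have hne : prA x - Finsupp.single (QuotientGroup.mk 1) 1 ≠ 0 := by
      intro h2
      have h3 : prA x = Finsupp.single (QuotientGroup.mk 1) 1 := sub_eq_zero.1 h2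
      have h4 : (prA x).sum (fun _ n => n) = x.sum (fun _ n => n) :=
        s1_sum (fun x : Monoid.Coprod A B => (QuotientGroup.mk x : Monoid.Coprod A B ⧸ SA A B)) x
      rw [hs, h3, Finsupp.sum_single_index rfl] at h4
      exact one_ne_zero h4
    obtain ⟨p, N, hN, hp⟩ := s1_period k _ hne hAinv
    obtain ⟨g, rfl⟩ := QuotientGroup.mk_surjective p
    exact ⟨g, Or.inl (s1_fin (SA A B) k g hord N hN hp
      (fun a ha hinf y hy => cent_A d hmul hA hB a ha hinf y hy))⟩
  · obtain ⟨p, N, hN, hp⟩ := s1_period k _ hz hBinv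
    obtain ⟨g, rfl⟩ := QuotientGroup.mk_surjective p
    exact ⟨g, Or.inr (s1_fin (SB A B) k g hord N hN hp
      (fun a ha hinf y hy => cent_B d hmul hA hB a ha hinf y hy))⟩

end H13B
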