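import Mathlib

set_option autoImplicit false

namespace H13B

/-- A finite set with a map of prime order without fixed points has a number of elements divisible
by the prime. -/
theorem dvd_card {Q : Type} (σ : Q → Q) (p : ℕ) (hp : p.Prime) (hσ : ∀ q, σ^[p] q = q)
    (hfix : ∀ q, σ q ≠ q) (L : Finset Q) (hL : ∀ q ∈ L, σ q ∈ L) : p ∣ L.card := by
  classical
  have : Fact p.Prime := ⟨hp⟩
  let f : Function.End L := fun q => ⟨σ q.1, hL q.1 q.2⟩
  have hit : ∀ (n : ℕ) (q : L), ((f ^ n) q).1 = σ^[n] q.1 := by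
    intro n
    induction n with
    | zero => intro q; rfl
    | succ n ih =>
      intro q
      rw [pow_succ', Function.iterate_succ_apply', ← ih q]
      rfl
  have hf : f ^ p ^ 1 = 1 := by
    funext q
    apply Subtype.ext
    rw [pow_one, hit, hσ]
    rfl
  have h1 := Equiv.Perm.card_fixedPoints_modEq (f := f) hf
  have h2 : Fintype.card (Function.fixedPoints f) = 0 := by
    rw [Fintype.card_eq_zero_iff]
    refine ⟨fun q => hfix q.1.1 ?_⟩
    exact congrArg Subtype.val q.2
  rw [h2, Fintype.card_coe] at h1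
  exact (Nat.modEq_zero_iff_dvd).1 h1

theorem dvd_sum {Q : Type} (σ : Q → Q) (hinj : Function.Injective σ) (p : ℕ) (hp : p.Prime)
    (hσ : ∀ q, σ^[p] q = q) (hfix : ∀ q, σ q ≠ q) (ξ : Q →₀ ℤ) (h : ξ.mapDomain σ = ξ) :
    (p : ℤ) ∣ ξ.sum (fun _ n => n) := by
  classical
  have hstep : ∀ q, ξ (σ q) = ξ q := by
    intro q
    have h1 := Finsupp.mapDomain_apply hinj ξ q
    rw [h] at h1
    exact h1
  have h1 : ξ.sum (fun _ n => n) = ∑ c ∈ ξ.support.image ξ, ∑ q ∈ ξ.support.filter (fun q => ξ q = c), ξ q := by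
    rw [Finsupp.sum]
    exact (Finset.sum_fiberwise_of_maps_to (fun q hq => Finset.mem_image_of_mem ξ hq) _).symm
  rw [h1]
  refine Finset.dvd_sum fun c _ => ?_
  have h2 : ∑ q ∈ ξ.support.filter (fun q => ξ q = c), ξ q =
      ((ξ.support.filter (fun q => ξ q = c)).card : ℤ) * c := by
    rw [Finset.sum_congr rfl (fun q hq => (Finset.mem_filter.1 hq).2), Finset.sum_const, nsmul_eq_mul]
  rw [h2]
  refine Dvd.dvd.mul_right ?_ c
  exact_mod_cast dvd_card σ p hp hσ hfix _ (fun q hq => by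
    rw [Finset.mem_filter, Finsupp.mem_support_iff] at hq ⊢
    rw [hstep q]
    exact hq)

end H13B
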